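import Mathlib

set_option autoImplicit false

namespace Q125.Pod

/-- A tournament with vertex set `V`: a loopless digraph in which every two distinct vertices are
joined by exactly one arc. `T.arc u v` says that `(u, v)` is an arc. -/
structure Tournament (V : Type) where
  arc : V → V → Prop
  loopless : ∀ v, ¬ arc v v
  joined : ∀ u v, u ≠ v → arc u v ∨ arc v u
  only_one : ∀ u v, arc u v → ¬ arc v u

/-- The arc set `A(T)`. -/
def Tournament.arcs {V : Type} (T : Tournament V) : Set (V × V) := {e | T.arc e.1 e.2}

/-- The subtournament `T[X]` induced on the vertex set `X`. -/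
def Tournament.sub {V : Type} (T : Tournament V) (X : Finset V) : Tournament X where
  arc u v := T.arc u v
  loopless v := T.loopless v
  joined u v h := T.joined u v (fun e => h (Subtype.ext e))
  only_one u v h := T.only_one u v h

/-- A set of ordered pairs is transitive if with `(a, b)` and `(b, c)` it contains `(a, c)`. -/
def TransSet {V : Type} (P : Set (V × V)) : Prop :=
  ∀ a b c, (a, b) ∈ P → (b, c) ∈ P → (a, c) ∈ P

/-- `T` has a partial order decomposition with `m` parts: `A(T)` is the union of `m` transitive
subsets of `A(T)`. -/
def HasDecomposition {V : Type} (T : Tournament V) (m : ℕ) : Prop :=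
  ∃ P : Fin m → Set (V × V), (∀ i, P i ⊆ T.arcs) ∧ (∀ i, TransSet (P i)) ∧ (⋃ i, P i) = T.arcs

/-- The partial order decomposition number `pod(T)`: the least number of parts in a partial order
decomposition of `T`. -/
noncomputable def pod {V : Type} (T : Tournament V) : ℕ := sInf {m | HasDecomposition T m}

/-- Some finite tournament with at most `k` vertices has `pod` at least `s`. -/
def Admissible (k s : ℕ) : Prop :=
  ∃ (V : Type) (_ : Fintype V) (T : Tournament V), Fintype.card V ≤ k ∧ s ≤ pod T

/-- For some `N`, every finite tournament with `pod` at least `N` contains a subtournament of size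
at most `k` whose `pod` is at least `s`. -/
def Unavoidable (k s : ℕ) : Prop :=
  ∃ N : ℕ, ∀ (V : Type) [Fintype V] (T : Tournament V), N ≤ pod T →
    ∃ X : Finset V, X.card ≤ k ∧ s ≤ pod (T.sub X)

end Q125.Pod
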