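import Mathlib
import Pool.Agent.Q125.Pod.Defs
import Pool.Agent.W179.Erdos

set_option autoImplicit false

namespace Q125.Pod

open Pool.Agent.W179.Erdos (FCyc erdos)

variable {V : Type}

theorem pod_le {T : Tournament V} {m : ℕ} (h : HasDecomposition T m) : pod T ≤ m :=
  Nat.sInf_le h

theorem hasDecomposition_card [Fintype V] (T : Tournament V) :
    HasDecomposition T (Fintype.card (V × V)) := by
  classical
  let e := Fintype.equivFin (V × V)
  refine ⟨fun i => {p | p = e.symm i ∧ p ∈ T.arcs}, ?_, ?_, ?_⟩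
  · rintro i p ⟨-, h⟩
    exact h
  · rintro i a b c ⟨h1, h1'⟩ ⟨h2, -⟩
    have h3 : (a, b) = (b, c) := h1.trans h2.symm
    have h4 : a = b := congrArg Prod.fst h3
    subst h4
    exact absurd h1' (T.loopless a)
  · ext p
    simp only [Set.mem_iUnion, Set.mem_ofPred_eq]
    constructor
    · rintro ⟨i, -, h⟩
      exact h
    · intro h
      exact ⟨e p, by simp, h⟩

theorem hasDecomposition_pod [Fintype V] (T : Tournament V) : HasDecomposition T (pod T) :=
  Nat.sInf_mem (s := {m | HasDecomposition T m}) ⟨_, hasDecomposition_card T⟩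

/-- The tournament with back edge graph `H` for the order given by `e`. -/
def ofGraph [Fintype V] (H : SimpleGraph V) (e : V ≃ Fin (Fintype.card V)) : Tournament V where
  arc u v := (e u < e v ∧ ¬ H.Adj u v) ∨ (e v < e u ∧ H.Adj u v)
  loopless v := by simp
  joined u v h := by
    have h1 : e u ≠ e v := fun h2 => h (e.injective h2)
    by_cases hA : H.Adj u v
    · rcases lt_or_gt_of_ne h1 with h2 | h2
      · exact Or.inr (Or.inr ⟨h2, hA.symm⟩)
      · exact Or.inl (Or.inr ⟨h2, hA⟩)
    · rcases lt_or_gt_of_ne h1 with h2 | h2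
      · exact Or.inl (Or.inl ⟨h2, hA⟩)
      · exact Or.inr (Or.inl ⟨h2, fun h => hA h.symm⟩)
  only_one u v h := by
    rintro (⟨h1, h2⟩ | ⟨h1, h2⟩)
    · rcases h with ⟨h3, h4⟩ | ⟨h3, h4⟩
      · exact absurd h1 (asymm h3)
      · exact h2 h4.symm
    · rcases h with ⟨h3, h4⟩ | ⟨h3, h4⟩
      · exact h4 h2.symm
      · exact absurd h1 (asymm h3)

theorem colorable_of_hasDecomposition [Fintype V] (H : SimpleGraph V)
    (e : V ≃ Fin (Fintype.card V)) (htri : ∀ a b c, H.Adj a b → H.Adj b c → ¬ H.Adj a c)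
    {m : ℕ} (h : HasDecomposition (ofGraph H e) m) : H.Colorable (2 ^ m) := by
  classical
  obtain ⟨P, h1, h2, h3⟩ := h
  have key : ∀ i x y z, (x, y) ∈ P i → (y, z) ∈ P i → e y < e x → e z < e y → False := by
    intro i x y z hxy hyz h4 h5
    have h6 := h1 i hxy
    have h7 := h1 i hyz
    have h8 := h1 i (h2 i x y z hxy hyz)
    have a1 : H.Adj x y := by
      rcases h6 with h6 | h6
      · exact absurd h6.1 (asymm h4)
      · exact h6.2
    have a2 : H.Adj y z := by
      rcases h7 with h7 | h7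
      · exact absurd h7.1 (asymm h5)
      · exact h7.2
    have a3 : H.Adj x z := by
      rcases h8 with h8 | h8
      · exact absurd h8.1 (asymm (h5.trans h4))
      · exact h8.2
    exact htri x y z a1 a2 a3
  let c : V → (Fin m → Bool) := fun x i => decide (∃ y, (x, y) ∈ P i ∧ e y < e x)
  have aux : ∀ x y, H.Adj x y → e y < e x → c x ≠ c y := by
    intro x y hxy hlt hc
    have harc : (x, y) ∈ (ofGraph H e).arcs := Or.inr ⟨hlt, hxy⟩
    rw [← h3, Set.mem_iUnion] at harc
    obtain ⟨i, hi⟩ := harc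
    have h4 : c x i = true := by
      simp only [c, decide_eq_true_eq]
      exact ⟨y, hi, hlt⟩
    rw [hc] at h4
    simp only [c, decide_eq_true_eq] at h4
    obtain ⟨z, hz, hlt2⟩ := h4
    exact key i x y z hi hz hlt hlt2
  have hval : ∀ {x y}, H.Adj x y → c x ≠ c y := by
    intro x y hxy
    have h4 : e x ≠ e y := fun h => hxy.ne (e.injective h)
    rcases lt_or_gt_of_ne h4 with h5 | h5
    · exact (aux y x hxy.symm h5).symm
    · exact aux x y hxy h5
  have := (SimpleGraph.Coloring.mk c hval).colorable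
  simpa using this

theorem triangleFree_of_erdos {H : SimpleGraph V} {g : ℕ} (hg : 3 ≤ g)
    (h : ∀ l f, FCyc H l f → g < l) :
    ∀ a b c, H.Adj a b → H.Adj b c → ¬ H.Adj a c := by
  intro a b c hab hbc hac
  have h1 : FCyc H 3 (fun i => if i = 0 then a else if i = 1 then b else c) := by
    refine ⟨le_rfl, ?_, ?_, ?_⟩
    · intro i hi j hj hij
      have n1 := hab.ne
      have n2 := hbc.ne
      have n3 := hac.ne
      interval_cases i <;> interval_cases j <;> simp_all
    · intro i hi
      have hi' : i < 2 := by omega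
      interval_cases i
      · simpa using hab
      · simpa using hbc
    · simpa using hac.symm
  have := h _ _ h1
  omega

theorem acyclic_induce {H : SimpleGraph V} {g : ℕ} (h : ∀ l f, FCyc H l f → g < l)
    (X : Finset V) (hX : X.card ≤ g) : (H.comap (Subtype.val : X → V)).IsAcyclic := by
  classical
  intro v c hc
  have h3 := hc.three_le_length
  have hlen : c.length ≤ X.card := by
    have hn := hc.support_nodup
    have h4 : c.support.tail.length = c.length := by simp
    rw [← h4]
    calc c.support.tail.length ≤ Fintype.card X := hn.length_le_card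
      _ = X.card := by simp
  have h1 : FCyc H c.length (fun i => (c.getVert i).val) := by
    refine ⟨h3, ?_, ?_, ?_⟩
    · intro i hi j hj hij
      have hinj := hc.getVert_injOn'
      refine hinj ?_ ?_ (Subtype.ext hij)
      · simp only [Set.mem_ofPred_eq]; omega
      · simp only [Set.mem_ofPred_eq]; omega
    · intro i hi
      have := c.adj_getVert_succ (i := i) (by omega)
      exact this
    · have h5 := c.adj_getVert_succ (i := c.length - 1) (by omega)
      have h6 : c.length - 1 + 1 = c.length := by omega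
      rw [h6, SimpleGraph.Walk.getVert_length] at h5
      have h7 : (c.getVert 0) = v := SimpleGraph.Walk.getVert_zero c
      simp only [h7]
      exact h5
  have := h _ _ h1
  omega

theorem pod_sub_le_three [Fintype V] (H : SimpleGraph V) (e : V ≃ Fin (Fintype.card V))
    (X : Finset V) (h : (H.comap (Subtype.val : X → V)).Colorable 2) :
    pod ((ofGraph H e).sub X) ≤ 3 := by
  obtain ⟨c⟩ := h
  apply pod_le
  have hin : ∀ u v : X, c u = c v → ((ofGraph H e).sub X).arc u v → e u < e v := by
    intro u v huv harc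
    rcases harc with h | h
    · exact h.1
    · exact absurd huv (c.valid (v := u) (w := v) h.2)
  have hin2 : ∀ u v : X, c u = c v → e u < e v → ((ofGraph H e).sub X).arc u v := by
    intro u v huv hlt
    refine Or.inl ⟨hlt, fun hadj => ?_⟩
    exact (c.valid (v := u) (w := v) hadj) huv
  have hlt2 : ∀ x : Fin 2, x = 0 ∨ x = 1 := by decide
  refine ⟨![{p | p ∈ ((ofGraph H e).sub X).arcs ∧ c p.1 = c p.2},
    {p | p ∈ ((ofGraph H e).sub X).arcs ∧ c p.1 = 0 ∧ c p.2 = 1},
    {p | p ∈ ((ofGraph H e).sub X).arcs ∧ c p.1 = 1 ∧ c p.2 = 0}], ?_, ?_, ?_⟩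
  · intro i p hp
    fin_cases i
    · exact hp.1
    · exact hp.1
    · exact hp.1
  · intro i
    fin_cases i
    · rintro x y z ⟨h1, h2⟩ ⟨h3, h4⟩
      refine ⟨?_, h2.trans h4⟩
      exact hin2 x z (h2.trans h4) ((hin x y h2 h1).trans (hin y z h4 h3))
    · rintro x y z ⟨h1, h2, h3⟩ ⟨h4, h5, h6⟩
      simp only at h3 h5
      rw [h3] at h5
      exact absurd h5 (by decide)
    · rintro x y z ⟨h1, h2, h3⟩ ⟨h4, h5, h6⟩
      simp only at h3 h5
      rw [h3] at h5
      exact absurd h5 (by decide)
  · ext p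
    simp only [Set.mem_iUnion]
    constructor
    · rintro ⟨i, hi⟩
      fin_cases i
      · exact hi.1
      · exact hi.1
      · exact hi.1
    · intro hp
      by_cases h1 : c p.1 = c p.2
      · exact ⟨0, hp, h1⟩
      · rcases hlt2 (c p.1) with h2 | h2 <;> rcases hlt2 (c p.2) with h3 | h3
        · exact absurd (h2.trans h3.symm) h1
        · exact ⟨1, hp, h2, h3⟩
        · exact ⟨2, hp, h2, h3⟩
        · exact absurd (h2.trans h3.symm) h1

/-- for every `g` and `N` there is a tournament with `pod` larger than `N` all of whose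
subtournaments with at most `g` vertices have `pod` at most `3`. -/
theorem exists_tournament (g N : ℕ) : ∃ (V : Type) (_ : Fintype V) (T : Tournament V),
    N < pod T ∧ ∀ X : Finset V, X.card ≤ g → pod (T.sub X) ≤ 3 := by
  obtain ⟨V, hV, H, hcol, hgirth⟩ := erdos (2 ^ N) (max g 3)
  let e := Fintype.equivFin V
  refine ⟨V, hV, ofGraph H e, ?_, ?_⟩
  · by_contra hlt
    push Not at hlt
    have h1 := colorable_of_hasDecomposition H e
      (triangleFree_of_erdos (le_max_right g 3) hgirth) (hasDecomposition_pod (ofGraph H e))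
    exact hcol (h1.mono (Nat.pow_le_pow_right (by norm_num) hlt))
  · intro X hX
    exact pod_sub_le_three H e X
      (acyclic_induce hgirth X (hX.trans (le_max_left g 3))).colorable_two

theorem exists_arc {T : Tournament V} (h : 1 ≤ pod T) : ∃ a b, T.arc a b := by
  by_contra hcon
  push Not at hcon
  have : HasDecomposition T 0 := by
    refine ⟨fun i => i.elim0, fun i => i.elim0, fun i => i.elim0, ?_⟩
    ext p
    simp only [Set.mem_iUnion]
    constructor
    · rintro ⟨i, -⟩
      exact i.elim0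
    · intro h
      exact absurd h (hcon p.1 p.2)
  have := pod_le this
  omega

theorem exists_triangle {T : Tournament V} (h : 2 ≤ pod T) :
    ∃ a b c, T.arc a b ∧ T.arc b c ∧ T.arc c a := by
  by_contra hcon
  push Not at hcon
  have : HasDecomposition T 1 := by
    refine ⟨fun _ => T.arcs, fun i => subset_rfl, ?_, ?_⟩
    · rintro i a b c h1 h2
      have h1' : T.arc a b := h1
      have h2' : T.arc b c := h2
      have hne : a ≠ c := by
        rintro rfl
        exact T.only_one _ _ h1' h2'
      rcases T.joined a c hne with h3 | h3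
      · exact h3
      · exact absurd h3 (hcon a b c h1' h2')
    · exact Set.iUnion_const _
  have := pod_le this
  omega

theorem one_le_pod [Fintype V] {T : Tournament V} {a b : V} (h : T.arc a b) : 1 ≤ pod T := by
  by_contra hcon
  have h0 : pod T = 0 := by omega
  have h1 := hasDecomposition_pod T
  rw [h0] at h1
  obtain ⟨P, -, -, h2⟩ := h1
  have h3 : (a, b) ∈ T.arcs := h
  rw [← h2, Set.mem_iUnion] at h3
  obtain ⟨i, -⟩ := h3
  exact i.elim0

theorem three_le_pod [Fintype V] {T : Tournament V} {a b c : V} (h1 : T.arc a b)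
    (h2 : T.arc b c) (h3 : T.arc c a) : 3 ≤ pod T := by
  obtain ⟨P, hP, hT, hU⟩ := hasDecomposition_pod T
  have e1 : (a, b) ∈ T.arcs := h1
  have e2 : (b, c) ∈ T.arcs := h2
  have e3 : (c, a) ∈ T.arcs := h3
  rw [← hU, Set.mem_iUnion] at e1 e2 e3
  obtain ⟨i, hi⟩ := e1
  obtain ⟨j, hj⟩ := e2
  obtain ⟨l, hl⟩ := e3
  have n1 : i ≠ j := by
    rintro rfl
    exact T.only_one _ _ h3 (hP i (hT i _ _ _ hi hj))
  have n2 : j ≠ l := by
    rintro rfl
    exact T.only_one _ _ h1 (hP j (hT j _ _ _ hj hl))
  have n3 : l ≠ i := by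
    rintro rfl
    exact T.only_one _ _ h2 (hP l (hT l _ _ _ hl hi))
  by_contra hcon
  have m1 := i.isLt
  have m2 := j.isLt
  have m3 := l.isLt
  have k1 : i.val ≠ j.val := fun h => n1 (Fin.ext h)
  have k2 : j.val ≠ l.val := fun h => n2 (Fin.ext h)
  have k3 : l.val ≠ i.val := fun h => n3 (Fin.ext h)
  omega

theorem ne_of_arc {T : Tournament V} {a b : V} (h : T.arc a b) : a ≠ b := by
  rintro rfl
  exact T.loopless _ h

theorem unavoidable_of_le_three {k s : ℕ} (h : Admissible k s) (h1 : 1 ≤ s) (h3 : s ≤ 3) :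
    Unavoidable k s := by
  classical
  obtain ⟨W, hW, S, hk, hs⟩ := h
  refine ⟨2, fun V _ T hT => ?_⟩
  rcases Nat.lt_or_ge s 2 with h2 | h2
  · obtain ⟨a, b, hab⟩ := exists_arc (h1.trans hs)
    have hk2 : 2 ≤ k := by
      refine le_trans ?_ hk
      have := (Finset.card_pair (ne_of_arc hab)) ▸ Finset.card_le_univ ({a, b} : Finset W)
      exact this
    obtain ⟨x, y, hxy⟩ := exists_arc (le_trans (by norm_num : 1 ≤ 2) hT)
    refine ⟨{x, y}, ?_, ?_⟩
    · rw [Finset.card_pair (ne_of_arc hxy)]
      exact hk2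
    · have h4 : ((T.sub {x, y}).arc ⟨x, by simp⟩ ⟨y, by simp⟩) := hxy
      have := one_le_pod h4
      omega
  · obtain ⟨a, b, c, hab, hbc, hca⟩ := exists_triangle (h2.trans hs)
    have hk3 : 3 ≤ k := by
      refine le_trans ?_ hk
      have h5 : ({a, b, c} : Finset W).card = 3 := by
        rw [Finset.card_eq_three]
        exact ⟨a, b, c, ne_of_arc hab, (ne_of_arc hca).symm, ne_of_arc hbc, rfl⟩
      rw [← h5]
      exact Finset.card_le_univ _
    obtain ⟨x, y, z, hxy, hyz, hzx⟩ := exists_triangle hT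
    refine ⟨{x, y, z}, ?_, ?_⟩
    · refine le_trans Finset.card_le_three hk3
    · have h4 : ((T.sub {x, y, z}).arc ⟨x, by simp⟩ ⟨y, by simp⟩) := hxy
      have h5 : ((T.sub {x, y, z}).arc ⟨y, by simp⟩ ⟨z, by simp⟩) := hyz
      have h6 : ((T.sub {x, y, z}).arc ⟨z, by simp⟩ ⟨x, by simp⟩) := hzx
      exact h3.trans (three_le_pod h4 h5 h6)

theorem not_unavoidable {k s : ℕ} (hs : 4 ≤ s) : ¬ Unavoidable k s := by
  rintro ⟨N, hN⟩
  obtain ⟨V, _, T, hT, hX⟩ := exists_tournament k N
  obtain ⟨X, h1, h2⟩ := hN V T hT.le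
  have := hX X h1
  omega

theorem exists_admissible (s : ℕ) : ∃ k, 1 ≤ k ∧ Admissible k s := by
  obtain ⟨V, _, T, hT, -⟩ := exists_tournament 0 s
  exact ⟨Fintype.card V + 1, Nat.le_add_left 1 _, V, inferInstance, T, Nat.le_succ _, hT.le⟩

theorem main :
    (¬ ∀ k s : ℕ, 1 ≤ k → 1 ≤ s → Admissible k s → Unavoidable k s) ∧
    (∀ k s : ℕ, 1 ≤ k → 1 ≤ s → Admissible k s → (Unavoidable k s ↔ s ≤ 3)) ∧
    (∀ s : ℕ, ∃ k : ℕ, 1 ≤ k ∧ Admissible k s) := by
  refine ⟨?_, ?_, exists_admissible⟩
  · intro h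
    obtain ⟨k, hk, hadm⟩ := exists_admissible 4
    exact not_unavoidable le_rfl (h k 4 hk (by norm_num) hadm)
  · intro k s hk hs hadm
    refine ⟨fun h => ?_, unavoidable_of_le_three hadm hs⟩
    by_contra hcon
    exact not_unavoidable (by omega) h

end Q125.Pod
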